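import Mathlib
import Pool.Agent.H.MP_5df5df_gt.A
set_option autoImplicit false
namespace Pool.Agent.Results.MP_5df5df_gt.NotTwo
open Set MeasureTheory

def IsBody (K : Set (EuclideanSpace ℝ (Fin 3))) : Prop :=
  IsCompact K ∧ Convex ℝ K ∧ (interior K).Nonempty

noncomputable def xray (u : EuclideanSpace ℝ (Fin 3)) (K : Set (EuclideanSpace ℝ (Fin 3)))
    (x : EuclideanSpace ℝ (Fin 3)) : ENNReal := volume {t : ℝ | x + t • u ∈ K}

theorem result (u₁ : EuclideanSpace ℝ (Fin 3)) (h₁ : ‖u₁‖ = 1) :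
    ∃ K, IsBody K ∧ ∀ u₂ : EuclideanSpace ℝ (Fin 3), ‖u₂‖ = 1 →
      ∃ K', IsBody K' ∧ K' ≠ K ∧ xray u₁ K' = xray u₁ K ∧ xray u₂ K' = xray u₂ K :=
  Pool.Agent.H.MP_5df5df_gt.main u₁ h₁

end Pool.Agent.Results.MP_5df5df_gt.NotTwo
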